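import Mathlib
import Pool.Agent.Y667.QKE.Stm
import Pool.Agent.Y388.QK.Deg

/-! QKE-EVG: multiquadratic fields are Galois; parity of the numbers of places. -/

set_option autoImplicit false
set_option linter.all false

namespace Pool.Agent.Y427.QKE

open NumberField Ideal Polynomial

theorem isGal {m : ℕ} (K : Type) [Field K] [NumberField K] (d : Fin m → ℤ) (x : Fin m → K)
    (hx : ∀ i, x i ^ 2 = (d i : K)) (htop : IntermediateField.adjoin ℚ (Set.range x) = ⊤) :
    IsGalois ℚ K := by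
  have hf : ∀ j, ((X ^ 2 - C (d j : ℚ) : ℚ[X]).map (algebraMap ℚ K)) =
      (X - C (x j)) * (X - C (- x j)) := by
    intro j
    rw [Polynomial.map_sub, Polynomial.map_pow, map_X, map_C]
    have : (algebraMap ℚ K) (d j : ℚ) = x j ^ 2 := by rw [hx]; simp
    rw [this, C_pow, C_neg]
    ring
  have hne : (∏ j, (X ^ 2 - C (d j : ℚ)) : ℚ[X]) ≠ 0 := by
    rw [Finset.prod_ne_zero_iff]
    intro j _
    exact (monic_X_pow_sub_C (d j : ℚ) two_ne_zero).ne_zero
  have hsf : (∏ j, (X ^ 2 - C (d j : ℚ)) : ℚ[X]).IsSplittingField ℚ K := by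
    rw [isSplittingField_iff_intermediateField]
    constructor
    · rw [Polynomial.map_prod]
      refine Polynomial.Splits.prod fun j _ => ?_
      rw [hf j]
      exact (Splits.X_sub_C _).mul (Splits.X_sub_C _)
    · rw [eq_top_iff, ← htop]
      apply IntermediateField.adjoin.mono
      rintro _ ⟨j, rfl⟩
      rw [mem_rootSet]
      refine ⟨hne, ?_⟩
      rw [map_prod]
      refine Finset.prod_eq_zero (Finset.mem_univ j) ?_
      rw [map_sub, map_pow, aeval_X, aeval_C, hx]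
      simp
  have hn : Normal ℚ K := Normal.of_isSplittingField (∏ j, (X ^ 2 - C (d j : ℚ)) : ℚ[X])
  exact isGalois_iff.mpr ⟨inferInstance, hn⟩

theorem places {m : ℕ} (K : Type) [Field K] [NumberField K] (d : Fin m → ℤ) (x : Fin m → K)
    (hd : ∀ i, 0 < d i)
    (hx : ∀ i, x i ^ 2 = (d i : K)) (htop : IntermediateField.adjoin ℚ (Set.range x) = ⊤) :
    Nat.card (InfinitePlace K) = Module.finrank ℚ K := by
  have hr : ∀ φ : K →+* ℂ, ∀ z : K, (starRingEnd ℂ) (φ z) = φ z := by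
    intro φ z
    have hz : z ∈ IntermediateField.adjoin ℚ (Set.range x) := by rw [htop]; trivial
    refine IntermediateField.adjoin_induction (p := fun z _ => (starRingEnd ℂ) (φ z) = φ z) ℚ
      ?_ ?_ ?_ ?_ ?_ hz
    · rintro _ ⟨j, rfl⟩
      have h1 : φ (x j) ^ 2 = ((Real.sqrt (d j) : ℝ) : ℂ) ^ 2 := by
        rw [← map_pow, hx, map_intCast, ← Complex.ofReal_pow, Real.sq_sqrt]
        · simp
        · exact_mod_cast (hd j).le
      rcases sq_eq_sq_iff_eq_or_eq_neg.1 h1 with h | h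
      · rw [h, Complex.conj_ofReal]
      · rw [h, map_neg, Complex.conj_ofReal]
    · intro r
      rw [eq_ratCast, map_ratCast, map_ratCast]
    · intro a b _ _ ha hb
      rw [map_add, map_add, ha, hb]
    · intro a _ ha
      rw [map_inv₀, map_inv₀, ha]
    · intro a b _ _ ha hb
      rw [map_mul, map_mul, ha, hb]
  have htr : ∀ v : InfinitePlace K, v.IsReal := by
    intro v
    rw [InfinitePlace.isReal_iff, ComplexEmbedding.isReal_iff]
    ext z
    exact hr _ z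
  have hT : IsTotallyReal K := ⟨htr⟩
  rw [Nat.card_eq_fintype_card, InfinitePlace.card_eq_nrRealPlaces_add_nrComplexPlaces,
    ← InfinitePlace.card_add_two_mul_card_eq_rank K]
  have hc : InfinitePlace.nrComplexPlaces K = 0 := IsTotallyReal.nrComplexPlaces_eq_zero K
  rw [hc]

theorem ne_one (K : Type) [Field K] [NumberField K] (σ : K ≃ₐ[ℚ] K) (α : K) {p : ℕ}
    (hp : p.Prime) (t n : ℤ) (h1 : α * (α - t) = p * n) (h2 : σ α = t - α)
    (ht : ¬ (p : ℤ) ∣ t) : (primesOver (span {(p : ℤ)}) (𝓞 K)).ncard ≠ 1 := by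
  intro hc
  obtain ⟨P, hP⟩ := Set.ncard_eq_one.1 hc
  have hPm : P ∈ primesOver (span {(p : ℤ)}) (𝓞 K) := by rw [hP]; rfl
  have hPp : P.IsPrime := hPm.1
  have hPo : P.LiesOver (span {(p : ℤ)}) := hPm.2
  have hα : IsIntegral ℤ α := by
    refine ⟨X ^ 2 - C t * X - C (p * n), by monicity!, ?_⟩
    simp only [eval₂_sub, eval₂_pow, eval₂_X, eval₂_mul, eval₂_C]
    simp
    linear_combination h1
  let a : 𝓞 K := ⟨α, hα⟩
  let s : 𝓞 K →+* 𝓞 K := RingOfIntegers.mapRingHom (σ : K →+* K)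
  have hQ : P.comap s ∈ primesOver (span {(p : ℤ)}) (𝓞 K) := by
    refine ⟨inferInstance, ⟨?_⟩⟩
    rw [under_def, comap_comap, RingHom.ext_int (s.comp (algebraMap ℤ (𝓞 K))) (algebraMap ℤ (𝓞 K))]
    exact hPo.over
  have hQP : P.comap s = P := by
    rw [hP] at hQ
    exact hQ
  have hmem : ∀ z, z ∈ P → s z ∈ P := fun z hz => by
    rw [← hQP] at hz
    exact hz
  have hint : ∀ k : ℤ, ((k : 𝓞 K) ∈ P ↔ (p : ℤ) ∣ k) := by
    intro k
    have h3 := hPo.over
    rw [← mem_span_singleton, h3, under_def, mem_comap]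
    simp
  have h1' : a * (a - (t : 𝓞 K)) = (p : ℤ) * n := by
    apply RingOfIntegers.ext
    push_cast
    exact h1
  have hprod : a * (a - (t : 𝓞 K)) ∈ P := by
    rw [h1']
    exact P.mul_mem_right _ ((hint p).2 (dvd_refl _))
  have hsa : s a = t - a := by
    apply RingOfIntegers.ext
    push_cast
    exact h2
  rcases hPp.mem_or_mem hprod with h | h
  · have h5 := hmem a h
    rw [hsa] at h5
    exact ht ((hint t).1 (by simpa using P.add_mem h5 h))
  · have h5 := hmem _ h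
    rw [map_sub, hsa, map_intCast] at h5
    have h6 : -a ∈ P := by
      convert h5 using 1
      ring
    have h7 := P.add_mem h6 h
    have h8 : -(t : 𝓞 K) ∈ P := by
      convert h7 using 1
      ring
    exact ht ((hint t).1 (by simpa using P.neg_mem h8))

theorem exists_neg (K : Type) [Field K] [NumberField K] [IsGalois ℚ K] (y : K) (D : ℤ)
    (hy : y ^ 2 = (D : K)) (hD : ¬ IsSquare (D : ℚ)) : ∃ σ : K ≃ₐ[ℚ] K, σ y = - y := by
  by_contra h
  push Not at h
  have h1 : ∀ σ : K ≃ₐ[ℚ] K, σ y = y := by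
    intro σ
    have h2 := congrArg σ hy
    rw [map_pow, map_intCast, ← hy] at h2
    rcases sq_eq_sq_iff_eq_or_eq_neg.1 h2 with h3 | h3
    · exact h3
    · exact absurd h3 (h σ)
  have h4 := (IsGalois.mem_bot_iff_fixed (F := ℚ) (E := K) y).2 h1
  rw [IntermediateField.mem_bot] at h4
  obtain ⟨r, hr⟩ := h4
  apply hD
  refine ⟨r, ?_⟩
  have h5 : algebraMap ℚ K (D : ℚ) = algebraMap ℚ K (r * r) := by
    rw [map_mul, hr, ← sq, hy]
    simp
  exact (algebraMap ℚ K).injective h5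

theorem even_pr (K : Type) [Field K] [NumberField K] [IsGalois ℚ K] {m : ℕ}
    (hfin : Module.finrank ℚ K = 2 ^ m) {p : ℕ} (hp : p.Prime)
    (h1 : (primesOver (span {(p : ℤ)}) (𝓞 K)).ncard ≠ 1) :
    Even (primesOver (span {(p : ℤ)}) (𝓞 K)).ncard := by
  have : Fact p.Prime := ⟨hp⟩
  have hmax : (span {(p : ℤ)}).IsMaximal := Int.ideal_span_isMaximal_of_prime p
  have hprime : (span {(p : ℤ)}).IsPrime := hmax.isPrime
  have h := ncard_primesOver_mul_ramificationIdxIn_mul_inertiaDegIn (span {(p : ℤ)}) (𝓞 K) Gal(K/ℚ)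
  rw [IsGaloisGroup.card_eq_finrank Gal(K/ℚ) ℚ K, hfin] at h
  obtain ⟨k, -, hk⟩ := (Nat.dvd_prime_pow Nat.prime_two).1 (Dvd.intro _ h)
  rw [hk] at h1 ⊢
  have hk0 : k ≠ 0 := by
    rintro rfl
    exact h1 rfl
  exact (Nat.even_pow' hk0).2 even_two

theorem sq_three {p : ℕ} [Fact p.Prime] (hp : p ≠ 2) (a b : ZMod p) (ha : a ≠ 0) (hb : b ≠ 0) :
    IsSquare a ∨ IsSquare b ∨ IsSquare (a * b) := by
  by_cases h1 : IsSquare a
  · exact Or.inl h1
  by_cases h2 : IsSquare b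
  · exact Or.inr (Or.inl h2)
  right; right
  have h3 := quadraticChar_neg_one_iff_not_isSquare.2 h1
  have h4 := quadraticChar_neg_one_iff_not_isSquare.2 h2
  rw [← quadraticChar_one_iff_isSquare (mul_ne_zero ha hb), map_mul, h3, h4]
  norm_num

theorem odd_case (K : Type) [Field K] [NumberField K] [IsGalois ℚ K] (y : K) (D : ℤ)
    (hy : y ^ 2 = (D : K)) (hD : ¬ IsSquare (D : ℚ)) {p : ℕ} (hp : p.Prime) (hp2 : p ≠ 2)
    (h0 : (D : ZMod p) ≠ 0) (hs : IsSquare (D : ZMod p)) :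
    (primesOver (span {(p : ℤ)}) (𝓞 K)).ncard ≠ 1 := by
  have : Fact p.Prime := ⟨hp⟩
  obtain ⟨σ, hσ⟩ := exists_neg K y D hy hD
  obtain ⟨c, hc⟩ := hs
  obtain ⟨a, rfl⟩ := ZMod.intCast_surjective c
  have h1 : (p : ℤ) ∣ D - a * a := by
    rw [← ZMod.intCast_zmod_eq_zero_iff_dvd]
    push_cast
    rw [hc, sub_self]
  obtain ⟨n, hn⟩ := h1
  refine ne_one K σ (y - a) hp (-2 * a) n ?_ ?_ ?_
  · have h2 := congrArg (Int.cast : ℤ → K) hn
    push_cast at h2 ⊢
    rw [← h2, ← hy]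
    ring
  · rw [map_sub, hσ, map_intCast]
    push_cast
    ring
  · intro h3
    have h4 : (p : ℤ) ∣ a * 2 := by
      have := (dvd_neg).2 h3
      rwa [show -(-2 * a) = a * 2 by ring] at this
    rcases (Nat.prime_iff_prime_int.1 hp).dvd_or_dvd h4 with h5 | h5
    · apply h0
      rw [hc]
      have : (a : ZMod p) = 0 := (ZMod.intCast_zmod_eq_zero_iff_dvd _ _).2 h5
      rw [this, mul_zero]
    · have h6 : p ∣ 2 := by exact_mod_cast h5
      exact hp2 ((Nat.prime_dvd_prime_iff_eq hp Nat.prime_two).1 h6)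

theorem two_case (K : Type) [Field K] [NumberField K] [IsGalois ℚ K] (y : K) (D : ℤ)
    (hy : y ^ 2 = (D : K)) (hD : ¬ IsSquare (D : ℚ)) (h8 : D % 8 = 1) :
    (primesOver (span {((2 : ℕ) : ℤ)}) (𝓞 K)).ncard ≠ 1 := by
  obtain ⟨σ, hσ⟩ := exists_neg K y D hy hD
  obtain ⟨n, hn⟩ : ∃ n : ℤ, D = 1 + 8 * n := ⟨D / 8, by omega⟩
  refine ne_one K σ ((1 + y) / 2) Nat.prime_two 1 n ?_ ?_ ?_
  · have h2 := congrArg (Int.cast : ℤ → K) hn
    push_cast at h2 ⊢
    rw [← hy] at h2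
    linear_combination (1 / 4 : K) * h2
  · rw [map_div₀, map_add, map_one, hσ, map_ofNat]
    push_cast
    ring
  · norm_num

/-- the final step, with the facts on the products as hypotheses -/
theorem evg_core (m : ℕ) (q q' : Fin m → ℕ) (hm : 2 ≤ m) (hq : ∀ j, (q j).Prime ∧ q j % 8 = 1)
    (hq' : ∀ j, (q' j).Prime ∧ q' j % 8 = 1) (K : Type) [Field K] [NumberField K]
    (hfin : Module.finrank ℚ K = 2 ^ m)
    (hnsq : ∀ S : Finset (Fin m), S.Nonempty → ¬ IsSquare (∏ i ∈ S, ((q i * q' i : ℕ) : ℚ)))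
    (x : Fin m → K) (hx : ∀ i, x i ^ 2 = ((((q i * q' i : ℕ) : ℤ)) : K))
    (htop : IntermediateField.adjoin ℚ (Set.range x) = ⊤) :
    IsGalois ℚ K ∧ Even (Nat.card (InfinitePlace K)) ∧
        ∀ p : ℕ, p.Prime → (∀ j, p ≠ q j ∧ p ≠ q' j) →
          Even (primesOver (span {(p : ℤ)}) (𝓞 K)).ncard := by
  have hgal : IsGalois ℚ K := isGal K (fun j => ((q j * q' j : ℕ) : ℤ)) x hx htop
  refine ⟨hgal, ?_, ?_⟩
  · rw [places K (fun j => ((q j * q' j : ℕ) : ℤ)) x (fun i => by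
      exact_mod_cast Nat.mul_pos (hq i).1.pos (hq' i).1.pos) hx htop, hfin]
    exact (Nat.even_pow' (by omega)).2 even_two
  · intro p hp hpq
    refine even_pr K hfin hp ?_
    obtain ⟨i0, i1, hi⟩ : ∃ i0 i1 : Fin m, i0 ≠ i1 := ⟨⟨0, by omega⟩, ⟨1, by omega⟩, by
      intro h
      have := congrArg Fin.val h
      simp at this⟩
    have D1 : ∀ i, ¬ IsSquare ((((q i * q' i : ℕ) : ℤ)) : ℚ) := by
      intro i h
      apply hnsq {i} ⟨i, Finset.mem_singleton_self i⟩
      rw [Finset.prod_singleton]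
      rwa [Int.cast_natCast] at h
    by_cases h2 : p = 2
    · subst h2
      refine two_case K (x i0) _ (hx i0) (D1 i0) ?_
      have h3 : (q i0 * q' i0) % 8 = 1 := by
        rw [Nat.mul_mod, (hq i0).2, (hq' i0).2]
      omega
    · have : Fact p.Prime := ⟨hp⟩
      have hn0 : ∀ i, ((((q i * q' i : ℕ) : ℤ)) : ZMod p) ≠ 0 := by
        intro i h
        rw [Int.cast_natCast, ZMod.natCast_eq_zero_iff] at h
        rcases hp.dvd_mul.1 h with h3 | h3
        · exact (hpq i).1 ((Nat.prime_dvd_prime_iff_eq hp (hq i).1).1 h3)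
        · exact (hpq i).2 ((Nat.prime_dvd_prime_iff_eq hp (hq' i).1).1 h3)
      rcases sq_three h2 _ _ (hn0 i0) (hn0 i1) with h3 | h3 | h3
      · exact odd_case K (x i0) _ (hx i0) (D1 i0) hp h2 (hn0 i0) h3
      · exact odd_case K (x i1) _ (hx i1) (D1 i1) hp h2 (hn0 i1) h3
      · refine odd_case K (x i0 * x i1) (((q i0 * q' i0 : ℕ) : ℤ) * ((q i1 * q' i1 : ℕ) : ℤ)) ?_ ?_
          hp h2 ?_ ?_
        · rw [mul_pow, hx, hx, Int.cast_mul]
        · intro h
          apply hnsq {i0, i1} ⟨i0, Finset.mem_insert_self _ _⟩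
          rw [Finset.prod_pair hi]
          rwa [Int.cast_mul, Int.cast_natCast, Int.cast_natCast] at h
        · rw [Int.cast_mul]
          exact mul_ne_zero (hn0 i0) (hn0 i1)
        · rw [Int.cast_mul]
          exact h3

theorem EVG : Pool.Agent.Y667.QK.EV.St_EVG := by
  intro m q q' hm hq hq' hi hi' hqq K _ _ hG
  have hfin : Module.finrank ℚ K = 2 ^ m := Pool.Agent.Y388.QK.DEG m q q' (fun j => (hq j).1)
    (fun j => (hq' j).1) hi hi' hqq K hG
  obtain ⟨x, hx, htop⟩ := hG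
  exact evg_core m q q' hm hq hq' K hfin
    (Pool.Agent.Y388.QK.not_sq q q' (fun j => (hq j).1) (fun j => (hq' j).1) hi hqq) x hx htop

end Pool.Agent.Y427.QKE
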